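import Pool.Agent.Q175.CE.GapC0
import Pool.Agent.Q240.CE.Stm

/-! Job GapC of the project CE of helper240. -/

set_option autoImplicit false

namespace Pool.Agent.Q175.CE

open Pool.Agent.Q240.CD

/-- JOB CE-GapC -/
theorem gapC : Pool.Agent.Q240.CE.S_GapC := by
  intro ι l g μ N M u hF hW q0 hq0 C
  exact gapC0 a_kb a_gap l g μ N M u hF hW q0 hq0 C

end Pool.Agent.Q175.CE
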