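import Pool.Agent.Q61.CD.Oeb
import Pool.Agent.Q16.CD.Uni

/-! Job GapC of the project CE of helper240: polynomials which vanish at `0` have a much larger quotient. -/

set_option autoImplicit false

open Polynomial Filter Topology Finset MeasureTheory

namespace Pool.Agent.Q175.CE

open Pool.Agent.Q240.CD Pool.Agent.Q61.CD

/-- odd polynomials -/
theorem oddC (hKb : S_Kb) (hgap : S_Gap) {ι : Type} (l : Filter ι) (g μ : ℕ → ℝ) (N : ι → ℕ)
    (M : ι → ℕ → ℝ) (u : ι → ℝ → ℝ) (hF : Fam l g μ N M) (hW : Wts l g N u) (q0 : ι → ℝ[X])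
    (hq0 : ∀ᶠ i in l, Ex g (M i) (N i) 0 (q0 i)) (C1 : ℝ) (hC1 : 0 < C1) :
    ∀ᶠ i in l, ∀ r : ℝ[X], r ≠ 0 → r.natDegree + 1 ≤ N i →
      C1 * Lam g (M i) (q0 i * q0 i) * Oo (u i) r < Lam g (M i) (X * r * r) := by
  rcases l.eq_or_neBot with rfl | hne
  · simp
  obtain ⟨r1, c0, hr1, hrg, hc0, hu⟩ := hW.low
  have hpm := hF.pm
  obtain ⟨i0, hi0, hi0'⟩ := (hpm.and hq0).exists
  have hg0 := hi0.pos
  have hCg := Cg_pos hi0.pos
  obtain ⟨K, hKdef⟩ : ∃ K, K = C1 / g 0 * Cg g := ⟨_, rfl⟩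
  have hK : 0 ≤ K := by rw [hKdef]; positivity
  obtain ⟨R, hX0, hX⟩ := tail_ge hW (1 / (4 * (K + 1))) (by positivity) 1
  obtain ⟨B, hB⟩ := hW.bdd R
  obtain ⟨ε, hεdef⟩ : ∃ ε, ε = 1 / (8 * R ^ 3 * (max B 0 + 1)) := ⟨_, rfl⟩
  have hX' : 0 < R := by linarith
  have hε : 0 < ε := by rw [hεdef]; positivity
  have hG := hgap l g μ N M hF q0 hq0 (R ^ 2) C1 ε hε
  filter_upwards [hpm, hq0, hu, hX, hB, hW.int, hW.intM, hG] with i h1 h2 h3 h4 h5 h6 h7 h9
  intro r0 hr0 hdeg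
  by_contra hcon
  rw [not_lt] at hcon
  have hδ := delta_pos h1 h2
  have hOo : 0 < Oo (u i) r0 := Oo_pos (hW.nonneg i) (hW.cont i) h6 hr1
    (fun x hx => lt_of_lt_of_le hc0 (h3 x hx)) r0 hdeg hr0
  obtain ⟨a, ha⟩ : ∃ a, a = 1 / Real.sqrt (Oo (u i) r0) := ⟨_, rfl⟩
  have ha2 : a ^ 2 * Oo (u i) r0 = 1 := by
    rw [ha, div_pow, Real.sq_sqrt hOo.le]
    field_simp
  obtain ⟨r, hr⟩ : ∃ r : ℝ[X], r = C a * r0 := ⟨_, rfl⟩
  have hrd : r.natDegree + 1 ≤ N i := by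
    rw [hr]
    have := Polynomial.natDegree_C_mul_le a r0
    omega
  have hO1 : Oo (u i) r = 1 := by rw [hr, Oo_smul, ha2]
  have hL1 : Lam g (M i) (X * r * r) = a ^ 2 * Lam g (M i) (X * r0 * r0) := by
    rw [← Lam_C_mul]
    congr 1
    rw [hr, C_pow]
    ring
  have hL3 : Lam g (M i) (X * r * r) ≤ C1 * Lam g (M i) (q0 i * q0 i) := by
    calc Lam g (M i) (X * r * r) = a ^ 2 * (Lam g (M i) (X * r0 * r0)) := by rw [hL1]
      _ ≤ a ^ 2 * (C1 * Lam g (M i) (q0 i * q0 i) * Oo (u i) r0) :=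
          mul_le_mul_of_nonneg_left hcon (sq_nonneg a)
      _ = C1 * Lam g (M i) (q0 i * q0 i) * (a ^ 2 * Oo (u i) r0) := by ring
      _ = C1 * Lam g (M i) (q0 i * q0 i) := by rw [ha2, mul_one]
  have hL4 : Lam g (M i) (r * r) ≤ C1 / g 0 * Lam g (M i) (q0 i * q0 i) := by
    have e1 := (Lam_le_X h1 r hrd).trans hL3
    have e2 : C1 / g 0 * Lam g (M i) (q0 i * q0 i) =
        (C1 * Lam g (M i) (q0 i * q0 i)) / g 0 := by
      field_simp
    rw [e2, le_div_iff₀ hg0, mul_comm]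
    exact e1
  have hgp := h9 r hrd hL3
  have hint : Integrable fun x => x ^ 2 * r.eval (x ^ 2) ^ 2 * u i x :=
    int_Oo (hW.nonneg i) (hW.cont i) h6 r hrd
  have e1 := split_int (F := fun x => x ^ 2 * r.eval (x ^ 2) ^ 2 * u i x)
      (G := fun x => MJ g (N i) x * u i x) (A := fun _ => 0) (K := K)
      (η := R ^ 2 * ε * max B 0) (τ := 1 / (4 * (K + 1))) hX'.le hint h7
      (integrable_zero _ _ _) (fun _ => le_rfl) hK (fun x => ?_) (fun x hx => ?_) h4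
  · rw [integral_zero, zero_add] at e1
    have e2 : ∫ x, x ^ 2 * r.eval (x ^ 2) ^ 2 * u i x = 1 := hO1
    rw [e2] at e1
    have e3 : 2 * R * (R ^ 2 * ε * max B 0) ≤ 1 / 4 := by
      have e4 : 2 * R * (R ^ 2 * ε * max B 0) = (max B 0 / (max B 0 + 1)) * (1 / 4) := by
        rw [hεdef]
        have hBp : 0 < max B 0 + 1 := by positivity
        field_simp
        ring
      have e5 : max B 0 / (max B 0 + 1) ≤ 1 := (div_le_one (by positivity)).2 (by linarith)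
      rw [e4]
      linarith
    have e6 : K * (1 / (4 * (K + 1))) ≤ 1 / 4 := by
      have e7 : K * (1 / (4 * (K + 1))) = (K / (K + 1)) * (1 / 4) := by
        field_simp
      have e8 : K / (K + 1) ≤ 1 := (div_le_one (by positivity)).2 (by linarith)
      rw [e7]
      linarith
    linarith
  · have e2 := r_bound_MJ hKb h1 h2 hrd (K := C1 / g 0) (by positivity) hL4 x
    rw [← hKdef] at e2
    rw [← mul_assoc]
    exact mul_le_mul_of_nonneg_right e2 (hW.nonneg i x)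
  · have hx2 : x ^ 2 ≤ R ^ 2 := sq_le_sq' (by linarith [(abs_le.1 hx).1]) (abs_le.1 hx).2
    rw [zero_add]
    have e3 := hgp (x ^ 2) (sq_nonneg x) hx2
    have e4 : x ^ 2 * r.eval (x ^ 2) ^ 2 ≤ R ^ 2 * ε :=
      mul_le_mul hx2 e3 (sq_nonneg _) (sq_nonneg _)
    exact mul_le_mul e4 ((h5 x hx).trans (le_max_left _ _)) (hW.nonneg i x) (by positivity)

/-- even polynomials which vanish at `0` -/
theorem evenC (hKb : S_Kb) (hgap : S_Gap) {ι : Type} (l : Filter ι) (g μ : ℕ → ℝ) (N : ι → ℕ)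
    (M : ι → ℕ → ℝ) (u : ι → ℝ → ℝ) (hF : Fam l g μ N M) (hW : Wts l g N u) (q0 : ι → ℝ[X])
    (hq0 : ∀ᶠ i in l, Ex g (M i) (N i) 0 (q0 i)) (C1 : ℝ) (hC1 : 0 < C1) :
    ∀ᶠ i in l, ∀ h : ℝ[X], h ≠ 0 → h.natDegree + 1 ≤ N i →
      C1 * Lam g (M i) (q0 i * q0 i) * Oe (u i) (X * h) < Lam g (M i) (X * h * (X * h)) := by
  rcases l.eq_or_neBot with rfl | hne
  · simp
  obtain ⟨r1, c0, hr1, hrg, hc0, hu⟩ := hW.low
  have hpm := hF.pm
  obtain ⟨i0, hi0, hi0'⟩ := (hpm.and hq0).exists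
  have hg0 := hi0.pos
  have hCg := Cg_pos hi0.pos
  obtain ⟨K, hKdef⟩ : ∃ K, K = C1 * Cg g := ⟨_, rfl⟩
  have hK : 0 ≤ K := by rw [hKdef]; positivity
  obtain ⟨R, hX0, hX⟩ := tail_ge hW (1 / (4 * (K + 1))) (by positivity) 1
  obtain ⟨B, hB⟩ := hW.bdd R
  obtain ⟨ε, hεdef⟩ : ∃ ε, ε = 1 / (8 * R ^ 5 * (max B 0 + 1)) := ⟨_, rfl⟩
  have hX' : 0 < R := by linarith
  have hε : 0 < ε := by rw [hεdef]; positivity
  have hG := hgap l g μ N M hF q0 hq0 (R ^ 2) (C1 / g 0) ε hε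
  filter_upwards [hpm, hq0, hu, hX, hB, hW.int, hW.intM, hG] with i h1 h2 h3 h4 h5 h6 h7 h9
  intro r0 hr0 hdeg
  by_contra hcon
  rw [not_lt] at hcon
  have hδ := delta_pos h1 h2
  have hXr0 : (X * r0 : ℝ[X]) ≠ 0 := mul_ne_zero X_ne_zero hr0
  have hXd : (X * r0 : ℝ[X]).natDegree ≤ N i := by
    rw [natDegree_X_mul hr0]
    exact hdeg
  have hOe : 0 < Oe (u i) (X * r0) := Oe_pos (hW.nonneg i) (hW.cont i) h6 hr1
    (fun x hx => lt_of_lt_of_le hc0 (h3 x hx)) (X * r0) hXd hXr0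
  obtain ⟨a, ha⟩ : ∃ a, a = 1 / Real.sqrt (Oe (u i) (X * r0)) := ⟨_, rfl⟩
  have ha2 : a ^ 2 * Oe (u i) (X * r0) = 1 := by
    rw [ha, div_pow, Real.sq_sqrt hOe.le]
    field_simp
  obtain ⟨r, hr⟩ : ∃ r : ℝ[X], r = C a * r0 := ⟨_, rfl⟩
  have hrd : r.natDegree + 1 ≤ N i := by
    rw [hr]
    have := Polynomial.natDegree_C_mul_le a r0
    omega
  have hXrd : (X * r : ℝ[X]).natDegree ≤ N i := by
    have := Polynomial.natDegree_mul_le (p := (X : ℝ[X])) (q := r)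
    have h3 := Polynomial.natDegree_X_le (R := ℝ)
    omega
  have hXr : (X * r : ℝ[X]) = C a * (X * r0) := by rw [hr]; ring
  have hO1 : Oe (u i) (X * r) = 1 := by rw [hXr, Oe_smul, ha2]
  have hL1 : Lam g (M i) (X * r * (X * r)) = a ^ 2 * Lam g (M i) (X * r0 * (X * r0)) := by
    rw [← Lam_C_mul]
    congr 1
    rw [hr, C_pow]
    ring
  have hL3 : Lam g (M i) (X * r * (X * r)) ≤ C1 * Lam g (M i) (q0 i * q0 i) := by
    calc Lam g (M i) (X * r * (X * r)) = a ^ 2 * (Lam g (M i) (X * r0 * (X * r0))) := by rw [hL1]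
      _ ≤ a ^ 2 * (C1 * Lam g (M i) (q0 i * q0 i) * Oe (u i) (X * r0)) :=
          mul_le_mul_of_nonneg_left hcon (sq_nonneg a)
      _ = C1 * Lam g (M i) (q0 i * q0 i) * (a ^ 2 * Oe (u i) (X * r0)) := by ring
      _ = C1 * Lam g (M i) (q0 i * q0 i) := by rw [ha2, mul_one]
  have hL4 : Lam g (M i) (X * r * r) ≤ C1 / g 0 * Lam g (M i) (q0 i * q0 i) := by
    have e1 := (Lam_X_le h1 r hrd).trans hL3
    have e2 : C1 / g 0 * Lam g (M i) (q0 i * q0 i) =
        (C1 * Lam g (M i) (q0 i * q0 i)) / g 0 := by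
      field_simp
    rw [e2, le_div_iff₀ hg0, mul_comm]
    exact e1
  have hgp := h9 r hrd hL4
  have hint : Integrable fun x => (X * r : ℝ[X]).eval (x ^ 2) ^ 2 * u i x :=
    int_Oe (hW.nonneg i) (hW.cont i) h6 (X * r) hXrd
  have e1 := split_int (F := fun x => (X * r : ℝ[X]).eval (x ^ 2) ^ 2 * u i x)
      (G := fun x => MJ g (N i) x * u i x) (A := fun _ => 0) (K := K)
      (η := R ^ 4 * ε * max B 0) (τ := 1 / (4 * (K + 1))) hX'.le hint h7
      (integrable_zero _ _ _) (fun _ => le_rfl) hK (fun x => ?_) (fun x hx => ?_) h4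
  · rw [integral_zero, zero_add] at e1
    have e2 : ∫ x, (X * r : ℝ[X]).eval (x ^ 2) ^ 2 * u i x = 1 := hO1
    rw [e2] at e1
    have e3 : 2 * R * (R ^ 4 * ε * max B 0) ≤ 1 / 4 := by
      have e4 : 2 * R * (R ^ 4 * ε * max B 0) = (max B 0 / (max B 0 + 1)) * (1 / 4) := by
        rw [hεdef]
        have hBp : 0 < max B 0 + 1 := by positivity
        field_simp
        ring
      have e5 : max B 0 / (max B 0 + 1) ≤ 1 := (div_le_one (by positivity)).2 (by linarith)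
      rw [e4]
      linarith
    have e6 : K * (1 / (4 * (K + 1))) ≤ 1 / 4 := by
      have e7 : K * (1 / (4 * (K + 1))) = (K / (K + 1)) * (1 / 4) := by
        field_simp
      have e8 : K / (K + 1) ≤ 1 := (div_le_one (by positivity)).2 (by linarith)
      rw [e7]
      linarith
    linarith
  · have e2 := q_bound_MJ hKb h1 h2 hXrd (K := C1) hC1.le hL3 x
    rw [← hKdef] at e2
    rw [← mul_assoc]
    exact mul_le_mul_of_nonneg_right e2 (hW.nonneg i x)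
  · have hx2 : x ^ 2 ≤ R ^ 2 := sq_le_sq' (by linarith [(abs_le.1 hx).1]) (abs_le.1 hx).2
    rw [zero_add]
    have e3 := hgp (x ^ 2) (sq_nonneg x) hx2
    have e0 : (X * r : ℝ[X]).eval (x ^ 2) ^ 2 = (x ^ 2) ^ 2 * r.eval (x ^ 2) ^ 2 := by
      rw [Polynomial.eval_mul, Polynomial.eval_X, mul_pow]
    have e4 : (X * r : ℝ[X]).eval (x ^ 2) ^ 2 ≤ R ^ 4 * ε := by
      rw [e0, show R ^ 4 = (R ^ 2) ^ 2 by ring]
      exact mul_le_mul (pow_le_pow_left₀ (sq_nonneg x) hx2 2) e3 (sq_nonneg _) (by positivity)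
    exact mul_le_mul e4 ((h5 x hx).trans (le_max_left _ _)) (hW.nonneg i x) (by positivity)

/-- JOB CE-GapC -/
theorem gapC0 (hKb : S_Kb) (hgap : S_Gap) {ι : Type} (l : Filter ι) (g μ : ℕ → ℝ) (N : ι → ℕ)
    (M : ι → ℕ → ℝ) (u : ι → ℝ → ℝ) (hF : Fam l g μ N M) (hW : Wts l g N u) (q0 : ι → ℝ[X])
    (hq0 : ∀ᶠ i in l, Ex g (M i) (N i) 0 (q0 i)) (C0 : ℝ) :
    ∀ᶠ i in l, ∀ P : ℝ[X], P ≠ 0 → P.natDegree ≤ 2 * N i → P.eval 0 = 0 →
      C0 * Lam g (M i) (q0 i * q0 i) * Op (u i) P < Lp g (M i) P := by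
  have hC1 : 0 < max C0 1 := lt_of_lt_of_le one_pos (le_max_right _ _)
  filter_upwards [hF.pm, hq0, hW.int, oddC hKb hgap l g μ N M u hF hW q0 hq0 (max C0 1) hC1,
    evenC hKb hgap l g μ N M u hF hW q0 hq0 (max C0 1) hC1] with i h1 h2 h6 hodd heven
  intro P hP hPd hP0
  have hδ := delta_pos h1 h2
  obtain ⟨q, hqdef⟩ : ∃ q, q = contract 2 P := ⟨_, rfl⟩
  obtain ⟨r, hrdef⟩ : ∃ r, r = contract 2 (divX P) := ⟨_, rfl⟩
  have hPs : P = q.comp (X ^ 2) + X * r.comp (X ^ 2) := by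
    rw [hqdef, hrdef]; exact Pool.Agent.Q16.CD.split_eval P
  have hqd : q.natDegree ≤ N i := by rw [hqdef]; exact Pool.Agent.Q16.CD.deg_contract hPd
  have hrd : r = 0 ∨ r.natDegree + 1 ≤ N i := by
    by_cases h0 : r = 0
    · exact Or.inl h0
    · right
      rw [hrdef] at h0 ⊢
      exact Pool.Agent.Q16.CD.deg_contract' hPd h0
  have hLs : Lp g (M i) P = Lam g (M i) (q * q) + Lam g (M i) (X * r * r) := by
    conv_lhs => rw [hPs]
    exact Pool.Agent.Q16.CD.Lp_split h1 hqd hrd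
  have hOs : Op (u i) P = Oe (u i) q + Oo (u i) r := by
    conv_lhs => rw [hPs]
    exact Pool.Agent.Q16.CD.Op_split (hW.nonneg i) (hW.even i) (hW.cont i) h6 hqd hrd
  -- `q = X h`
  have hq00 : q.coeff 0 = 0 := by
    rw [hqdef, coeff_contract (by norm_num), zero_mul, coeff_zero_eq_eval_zero]
    exact hP0
  obtain ⟨h, hh⟩ : ∃ h, h = divX q := ⟨_, rfl⟩
  have hqX : q = X * h := by
    have := X_mul_divX_add q
    rw [hq00, C_0, add_zero, ← hh] at this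
    exact this.symm
  have hOe0 : 0 ≤ Oe (u i) q := integral_nonneg fun x => mul_nonneg (sq_nonneg _) (hW.nonneg i x)
  have hOo0 : 0 ≤ Oo (u i) r := integral_nonneg fun x =>
    mul_nonneg (mul_nonneg (sq_nonneg _) (sq_nonneg _)) (hW.nonneg i x)
  have A1 : C0 * Lam g (M i) (q0 i * q0 i) * Oe (u i) q ≤ Lam g (M i) (q * q) ∧
      (q ≠ 0 → C0 * Lam g (M i) (q0 i * q0 i) * Oe (u i) q < Lam g (M i) (q * q)) := by
    have key : q ≠ 0 → C0 * Lam g (M i) (q0 i * q0 i) * Oe (u i) q < Lam g (M i) (q * q) := by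
      intro hq
      have hh0 : h ≠ 0 := by
        rintro h0
        rw [h0, mul_zero] at hqX
        exact hq hqX
      have hhd : h.natDegree + 1 ≤ N i := by
        rw [hqX, natDegree_X_mul hh0] at hqd
        exact hqd
      have h7 := heven h hh0 hhd
      rw [← hqX] at h7
      refine lt_of_le_of_lt ?_ h7
      exact mul_le_mul_of_nonneg_right (mul_le_mul_of_nonneg_right (le_max_left _ _) hδ.le) hOe0
    refine ⟨?_, key⟩
    by_cases hq : q = 0
    · have e1 : Oe (u i) q = 0 := by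
        rw [hq]
        unfold Oe
        simp
      have e2 : Lam g (M i) (q * q) = 0 := by
        rw [hq]
        unfold Lam
        simp
      rw [e1, e2, mul_zero]
    · exact (key hq).le
  have A2 : C0 * Lam g (M i) (q0 i * q0 i) * Oo (u i) r ≤ Lam g (M i) (X * r * r) ∧
      (r ≠ 0 → C0 * Lam g (M i) (q0 i * q0 i) * Oo (u i) r < Lam g (M i) (X * r * r)) := by
    have key : r ≠ 0 → C0 * Lam g (M i) (q0 i * q0 i) * Oo (u i) r < Lam g (M i) (X * r * r) := by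
      intro hr
      have h7 := hodd r hr (hrd.resolve_left hr)
      refine lt_of_le_of_lt ?_ h7
      exact mul_le_mul_of_nonneg_right (mul_le_mul_of_nonneg_right (le_max_left _ _) hδ.le) hOo0
    refine ⟨?_, key⟩
    by_cases hr : r = 0
    · have e1 : Oo (u i) r = 0 := by
        rw [hr]
        unfold Oo
        simp
      have e2 : Lam g (M i) (X * r * r) = 0 := by
        rw [hr]
        unfold Lam
        simp
      rw [e1, e2, mul_zero]
    · exact (key hr).le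
  rw [hLs, hOs, mul_add]
  by_cases hq : q = 0
  · have hr : r ≠ 0 := by
      rintro hr
      rw [hq, hr, zero_comp, mul_zero, add_zero] at hPs
      exact hP hPs
    exact add_lt_add_of_le_of_lt A1.1 (A2.2 hr)
  · exact add_lt_add_of_lt_of_le (A1.2 hq) A2.1

end Pool.Agent.Q175.CE
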