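import Pool.Agent.Q175.CE.LocA
import Pool.Agent.Q240.CE.Stm

/-! Job Loc of the project CE of helper240, part 2. -/

set_option autoImplicit false

open Filter Topology Finset MeasureTheory Complex
open scoped ComplexConjugate

namespace Pool.Agent.Q175.CE

open Pool.Agent.Q240.CD (Tg Tg_ek Tg_Hn)

lemma Lg_mono {s t : ℝ} (h : |s| ≤ t) : Y23.G.Lg s ≤ Y23.G.Lg t := by
  unfold Y23.G.Lg
  refine Real.log_le_log (by positivity) ?_
  have := le_abs_self t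
  linarith

/-- zeros of bounded height -/
theorem loc_low [D : Y23.G.ZD] : ∃ K : ℝ, 0 < K ∧ ∀ (a y T : ℝ) (f : ℝ → ℂ), 1 ≤ a → 0 ≤ y → 0 ≤ T → Y23.Fa a f →
    ∀ S : Finset Y23.G.Zt, (∀ ρ ∈ S, |(ρ : ℂ).re - 1 / 2| ≤ y ∧ |(ρ : ℂ).im| ≤ T) →
      ∑ ρ ∈ S, (Y23.G.mu (ρ : ℂ) : ℝ) * ‖Y23.TT f ((ρ : ℂ) - 1 / 2)‖ ^ 2 ≤
        (8 * a * Real.exp ((a + 1) * (2 * y)) * (K * Y23.G.Lg T)) * Y23.N2 f := by
  obtain ⟨K, hK, hz⟩ := Y23.G.zsum_le (D := D)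
  refine ⟨K, hK, fun a y T f ha hy hT hf S hS => ?_⟩
  obtain ⟨B, hB⟩ : ∃ B, B = 8 * a * Real.exp ((a + 1) * (2 * y)) := ⟨_, rfl⟩
  have hB0 : 0 < B := by rw [hB]; positivity
  have hLT := Y23.G.one_le_Lg T
  rw [← hB]
  refine dual S (fun ρ => (ρ : ℂ) - 1 / 2) (fun ρ => (Y23.G.mu (ρ : ℂ) : ℝ)) (fun r _ => Nat.cast_nonneg _)
    (fun r s => B / (1 + ((r : ℂ).im - (s : ℂ).im) ^ 2)) (fun r s => ?_) (by linarith) (fun r hr s hs => ?_)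
    (by positivity) (fun r hr => ?_) hf
  · congr 2
    ring
  · have h1 := K1_norm ha (((r : ℂ) - 1 / 2) + conj ((s : ℂ) - 1 / 2))
    have e1 : (((r : ℂ) - 1 / 2) + conj ((s : ℂ) - 1 / 2)).im = (r : ℂ).im - (s : ℂ).im := by
      simp
      ring
    have e2 : (((r : ℂ) - 1 / 2) + conj ((s : ℂ) - 1 / 2)).re = ((r : ℂ).re - 1 / 2) + ((s : ℂ).re - 1 / 2) := by
      simp
    rw [e1] at h1
    refine h1.trans ?_
    refine div_le_div_of_nonneg_right ?_ (by positivity)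
    rw [hB]
    refine mul_le_mul_of_nonneg_left (Real.exp_le_exp.2 ?_) (by positivity)
    refine mul_le_mul_of_nonneg_left ?_ (by linarith)
    rw [e2]
    refine (abs_add_le _ _).trans ?_
    have := (hS r hr).1
    have := (hS s hs).1
    linarith
  · have h1 := (Y23.G.zsummable (D := D) (r : ℂ).im).sum_le_tsum S fun s _ => by positivity
    have h2 := h1.trans (hz (r : ℂ).im)
    have h3 : ∑ s ∈ S, (Y23.G.mu (s : ℂ) : ℝ) * (B / (1 + ((r : ℂ).im - (s : ℂ).im) ^ 2)) =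
        B * ∑ s ∈ S, (Y23.G.mu (s : ℂ) : ℝ) * (1 / (1 + ((s : ℂ).im - (r : ℂ).im) ^ 2)) := by
      rw [mul_sum]
      refine sum_congr rfl fun s _ => ?_
      rw [show ((r : ℂ).im - (s : ℂ).im) ^ 2 = ((s : ℂ).im - (r : ℂ).im) ^ 2 by ring]
      ring
    rw [h3]
    refine mul_le_mul_of_nonneg_left (h2.trans ?_) hB0.le
    exact mul_le_mul_of_nonneg_left (Lg_mono (hS r hr).2) hK.le

lemma TT_sum {a : ℝ} {n : ℕ} {f : ℝ → ℂ} {c : ℤ → ℂ}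
    (hc : f = fun x => ∑ k ∈ Finset.Icc (-(n : ℤ)) n, c k * Y23.G.F.ek a (-k) x) (w : ℂ) :
    Y23.TT f w = ∑ k ∈ Finset.Icc (-(n : ℤ)) n, c k * Y23.TT (Y23.G.F.ek a (-k)) w := by
  have e1 : ∀ x : ℝ, f x * cexp (w * x) = ∑ k ∈ Finset.Icc (-(n : ℤ)) n, c k * (Y23.G.F.ek a (-k) x * cexp (w * x)) := by
    intro x
    rw [hc]
    simp only
    rw [sum_mul]
    exact sum_congr rfl fun k _ => by ring
  have e2 : Y23.TT f w = ∫ x : ℝ, f x * cexp (w * x) := rfl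
  rw [e2]
  simp only [e1]
  rw [integral_finsetSum _ fun k _ =>
    ((Y23.G.F.Fa_ek (a := a) (-k)).integrable_mul (g := fun x : ℝ => cexp (w * x)) (by fun_prop)).const_mul (c k)]
  refine sum_congr rfl fun k _ => ?_
  rw [integral_const_mul]
  rfl

/-- far from the nodes the transform of a trigonometric polynomial is small -/
theorem TT_far {a : ℝ} (ha : 1 ≤ a) {n : ℕ} (hn : a ≤ n) {f : ℝ → ℂ} (hf : Tg a n f) (w : ℂ)
    (hw : 8 * (n : ℝ) ^ 2 ≤ |w.im|) :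
    ‖Y23.TT f w‖ ^ 2 ≤ 1152 * (n : ℝ) ^ 2 * a * Real.exp (2 * |w.re| * a) * Y23.N2 f / |w.im| ^ 2 := by
  have ha0 : 0 < a := by linarith
  have hn1 : (1 : ℝ) ≤ n := ha.trans hn
  have hFa : Y23.Fa a f := (Tg_Hn ha0 hf).1
  obtain ⟨c, hc⟩ := Tg_ek hf
  have hN := Y23.N2_nonneg f
  obtain ⟨q, hq⟩ : ∃ q, q = Real.sqrt (Y23.N2 f / (2 * a)) := ⟨_, rfl⟩
  have hq0 : 0 ≤ q := by rw [hq]; exact Real.sqrt_nonneg _
  have hq2 : q ^ 2 = Y23.N2 f / (2 * a) := by rw [hq]; exact Real.sq_sqrt (by positivity)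
  have hck : ∀ k ∈ Finset.Icc (-(n : ℤ)) n, ‖c k‖ ≤ q := by
    intro k hk
    have h1 := TT_sum hc (Y23.G.F.nd a (-k))
    rw [sum_eq_single_of_mem k hk fun j _ hjk => by
      rw [Y23.G.F.TT_ek_nd ha0 (by simpa using hjk.symm), mul_zero]] at h1
    rw [Y23.G.F.TT_ek_self ha0] at h1
    have h2 := Y23.norm_TT_le ha0 hFa (Y23.G.F.nd a (-k))
    rw [Y23.G.F.nd_re, abs_zero, mul_zero, Real.exp_zero, mul_one, h1, norm_mul] at h2
    have h3 : ‖(2 : ℂ) * a‖ = 2 * a := by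
      rw [norm_mul, Complex.norm_real, Real.norm_of_nonneg ha0.le]
      simp
    rw [h3] at h2
    refine le_of_sq_le_sq ?_ hq0
    rw [hq2, le_div_iff₀ (by positivity)]
    nlinarith
  have hw0 : 0 < |w.im| := by nlinarith
  obtain ⟨V, hV⟩ : ∃ V, V = (2 * a + 2) * Real.exp (a * |w.re|) / (|w.im| / 2) := ⟨_, rfl⟩
  have hV0 : 0 ≤ V := by rw [hV]; positivity
  have hek : ∀ k ∈ Finset.Icc (-(n : ℤ)) n, ‖Y23.TT (Y23.G.F.ek a (-k)) w‖ ≤ V := by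
    intro k hk
    rw [Finset.mem_Icc] at hk
    rw [Y23.G.F.TT_ek]
    have h1 := Y23.G.F.TT_box_le2 ha0 (-Y23.G.F.nd a (-k) + w)
    have e1 : (-Y23.G.F.nd a (-k) + w).re = w.re := by
      rw [Complex.add_re, Complex.neg_re, Y23.G.F.nd_re]
      ring
    have e2 : (-Y23.G.F.nd a (-k) + w).im = w.im + Real.pi * k / a := by
      rw [Complex.add_im, Complex.neg_im, Y23.G.F.nd_im]
      push_cast
      ring
    rw [e1] at h1
    have hk1 : |(k : ℝ)| ≤ n := by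
      rw [abs_le]
      exact ⟨by exact_mod_cast hk.1, by exact_mod_cast hk.2⟩
    have h2 : |Real.pi * k / a| ≤ 4 * (n : ℝ) ^ 2 := by
      rw [abs_div, abs_mul, abs_of_pos Real.pi_pos, abs_of_pos ha0, div_le_iff₀ ha0]
      have h3 := Real.pi_lt_four
      have h4 := Real.pi_pos
      have h5 : Real.pi * |(k : ℝ)| ≤ 4 * n := mul_le_mul h3.le hk1 (abs_nonneg _) (by norm_num)
      nlinarith
    have h3 : |w.im| / 2 ≤ |w.im + Real.pi * k / a| := by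
      have h4 := abs_sub_abs_le_abs_sub w.im (-(Real.pi * k / a))
      rw [abs_neg, sub_neg_eq_add] at h4
      linarith
    rw [e2] at h1
    rw [hV, le_div_iff₀ (by positivity)]
    refine le_trans ?_ h1
    rw [mul_comm]
    exact mul_le_mul_of_nonneg_right (by linarith) (norm_nonneg _)
  have h1 : ‖Y23.TT f w‖ ≤ (2 * n + 1) * (q * V) := by
    rw [TT_sum hc w]
    refine (norm_sum_le _ _).trans ?_
    calc ∑ k ∈ Finset.Icc (-(n : ℤ)) n, ‖c k * Y23.TT (Y23.G.F.ek a (-k)) w‖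
        ≤ ∑ k ∈ Finset.Icc (-(n : ℤ)) n, q * V := sum_le_sum fun k hk => by
          rw [norm_mul]
          exact mul_le_mul (hck k hk) (hek k hk) (norm_nonneg _) hq0
      _ = (2 * n + 1) * (q * V) := by
          rw [sum_const, nsmul_eq_mul, Int.card_Icc]
          congr 1
          have : ((n : ℤ) + 1 - (-(n : ℤ))).toNat = 2 * n + 1 := by omega
          rw [this]
          push_cast
          ring
  have h2 := pow_le_pow_left₀ (norm_nonneg _) h1 2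
  refine h2.trans ?_
  have e1 : ((2 * (n : ℝ) + 1) * (q * V)) ^ 2 =
      (2 * (n : ℝ) + 1) ^ 2 * (2 * a + 2) ^ 2 * (Real.exp (2 * |w.re| * a) * Y23.N2 f * (2 / a)) / |w.im| ^ 2 := by
    rw [mul_pow, mul_pow, hq2, hV, div_pow, mul_pow, ← Real.exp_nat_mul]
    rw [show ((2 : ℕ) : ℝ) * (a * |w.re|) = 2 * |w.re| * a by push_cast; ring]
    field_simp
    try ring
  rw [e1]
  refine div_le_div_of_nonneg_right ?_ (by positivity)
  have h3 : (2 * (n : ℝ) + 1) ^ 2 ≤ 9 * (n : ℝ) ^ 2 := by nlinarith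
  have h4 : (2 * a + 2) ^ 2 ≤ 16 * a ^ 2 := by nlinarith
  have h5 : 0 ≤ Real.exp (2 * |w.re| * a) * Y23.N2 f * (2 / a) := by positivity
  calc (2 * (n : ℝ) + 1) ^ 2 * (2 * a + 2) ^ 2 * (Real.exp (2 * |w.re| * a) * Y23.N2 f * (2 / a))
      ≤ (9 * (n : ℝ) ^ 2) * (16 * a ^ 2) * (Real.exp (2 * |w.re| * a) * Y23.N2 f * (2 / a)) := by
        refine mul_le_mul_of_nonneg_right ?_ h5
        exact mul_le_mul h3 h4 (by positivity) (by positivity)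
    _ = 288 * (n : ℝ) ^ 2 * a * Real.exp (2 * |w.re| * a) * Y23.N2 f := by
        field_simp
        try ring
    _ ≤ 1152 * (n : ℝ) ^ 2 * a * Real.exp (2 * |w.re| * a) * Y23.N2 f := by
        have : 0 ≤ (n : ℝ) ^ 2 * a * Real.exp (2 * |w.re| * a) * Y23.N2 f := by positivity
        nlinarith

lemma rp_bound {n : ℕ} (hn : 1 ≤ n) {v x : ℝ} (hv : 8 * (n : ℝ) ^ 8 ≤ v) (hx0 : 0 ≤ x) (hx : x ≤ 1 + v) :
    1 / v ^ 2 ≤ 4 / (n : ℝ) ^ 2 * (1 / (1 + x) ^ (7 / 4 : ℝ)) := by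
  have hn1 : (1 : ℝ) ≤ n := by exact_mod_cast hn
  have hn8 : (1 : ℝ) ≤ (n : ℝ) ^ 8 := one_le_pow₀ hn1
  have hv8 : 8 ≤ v := by linarith
  have hv0 : 0 < v := by linarith
  have h1 : (1 + x) ^ (7 / 4 : ℝ) ≤ 4 * v ^ (7 / 4 : ℝ) := by
    calc (1 + x) ^ (7 / 4 : ℝ) ≤ (2 * v) ^ (7 / 4 : ℝ) :=
          Real.rpow_le_rpow (by linarith) (by linarith) (by norm_num)
      _ = 2 ^ (7 / 4 : ℝ) * v ^ (7 / 4 : ℝ) := Real.mul_rpow (by norm_num) hv0.le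
      _ ≤ 4 * v ^ (7 / 4 : ℝ) := by
          refine mul_le_mul_of_nonneg_right ?_ (Real.rpow_nonneg hv0.le _)
          calc (2 : ℝ) ^ (7 / 4 : ℝ) ≤ 2 ^ (2 : ℝ) := Real.rpow_le_rpow_of_exponent_le (by norm_num) (by norm_num)
            _ = 4 := by norm_num
  have h2 : (n : ℝ) ^ 2 ≤ v ^ (1 / 4 : ℝ) := by
    calc (n : ℝ) ^ 2 = ((n : ℝ) ^ 8) ^ (1 / 4 : ℝ) := by
          rw [← Real.rpow_natCast, ← Real.rpow_natCast, ← Real.rpow_mul (by linarith)]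
          norm_num
      _ ≤ v ^ (1 / 4 : ℝ) := Real.rpow_le_rpow (by positivity) (by linarith) (by norm_num)
  have h3 : v ^ 2 = v ^ (1 / 4 : ℝ) * v ^ (7 / 4 : ℝ) := by
    rw [← Real.rpow_add hv0]
    norm_num
  have h4 : 0 < v ^ (7 / 4 : ℝ) := Real.rpow_pos_of_pos hv0 _
  have h5 : 0 < (1 + x) ^ (7 / 4 : ℝ) := Real.rpow_pos_of_pos (by linarith) _
  have h6 : (n : ℝ) ^ 2 * (1 + x) ^ (7 / 4 : ℝ) ≤ 4 * v ^ 2 := by
    rw [h3]
    calc (n : ℝ) ^ 2 * (1 + x) ^ (7 / 4 : ℝ) ≤ v ^ (1 / 4 : ℝ) * (4 * v ^ (7 / 4 : ℝ)) :=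
          mul_le_mul h2 h1 h5.le (Real.rpow_nonneg hv0.le _)
      _ = _ := by ring
  have e : 4 / (n : ℝ) ^ 2 * (1 / (1 + x) ^ (7 / 4 : ℝ)) = 4 / ((n : ℝ) ^ 2 * (1 + x) ^ (7 / 4 : ℝ)) := by
    field_simp
  rw [e, div_le_div_iff₀ (by positivity) (by positivity)]
  linarith

theorem loc_fin (hS : Pool.Agent.Q240.CE.S_SumG) [D : Y23.G.ZD] : ∃ C : ℝ, 0 < C ∧
    ∀ (a y : ℝ) (n : ℕ) (f : ℝ → ℂ), 1 ≤ a → 0 ≤ y → y ≤ 1 → a ≤ n → Tg a n f →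
    ∀ S : Finset Y23.G.Zt, (∀ ρ ∈ S, |(ρ : ℂ).re - 1 / 2| ≤ y) →
      ∑ ρ ∈ S, (Y23.G.mu (ρ : ℂ) : ℝ) * ‖Y23.TT f ((ρ : ℂ) - 1 / 2)‖ ^ 2 ≤
        C * a ^ 3 * Real.log (n + 2) ^ 2 * Real.exp (2 * y * a) * Y23.N2 f := by
  classical
  obtain ⟨K, hK, hlow⟩ := loc_low (D := D)
  obtain ⟨hS7, -, -⟩ := hS (D := D)
  obtain ⟨S7, hS7d⟩ : ∃ S7, S7 = ∑' ρ : Y23.G.Zt, (Y23.G.mu (ρ : ℂ) : ℝ) / (1 + ‖(ρ : ℂ) - 1 / 2‖) ^ (7 / 4 : ℝ) := ⟨_, rfl⟩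
  have hS70 : 0 ≤ S7 := by
    rw [hS7d]
    exact tsum_nonneg fun ρ => by positivity
  refine ⟨88 * Real.exp 2 * K + 4608 * S7, by positivity, fun a y n f ha hy hy1 hn hf S hSy => ?_⟩
  have ha0 : 0 < a := by linarith
  have hFa : Y23.Fa a f := (Tg_Hn ha0 hf).1
  have hN := Y23.N2_nonneg f
  have hn1 : (1 : ℝ) ≤ n := ha.trans hn
  have hn1' : 1 ≤ n := by exact_mod_cast hn1
  obtain ⟨T, hT⟩ : ∃ T : ℝ, T = 8 * (n : ℝ) ^ 8 := ⟨_, rfl⟩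
  have hT0 : 0 ≤ T := by rw [hT]; positivity
  obtain ⟨L, hL⟩ : ∃ L, L = Real.log (n + 2) := ⟨_, rfl⟩
  have hL1 : 1 ≤ L := by
    rw [hL, Real.le_log_iff_exp_le (by positivity)]
    have := Real.exp_one_lt_d9
    linarith
  have hLT : Y23.G.Lg T ≤ 11 * L := by
    unfold Y23.G.Lg
    rw [abs_of_nonneg hT0, hL, ← Real.log_rpow (by positivity)]
    refine Real.log_le_log (by positivity) ?_
    have e1 : ((n : ℝ) + 2) ^ (11 : ℝ) = ((n : ℝ) + 2) ^ 11 := by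
      exact_mod_cast Real.rpow_natCast ((n : ℝ) + 2) 11
    rw [e1, hT]
    have h2 : (n : ℝ) ^ 8 + 1 ≤ ((n : ℝ) + 2) ^ 8 := by
      have h3 : ((n : ℝ) + 1) ^ 8 ≤ ((n : ℝ) + 2) ^ 8 := pow_le_pow_left₀ (by positivity) (by linarith) 8
      have h4 : (n : ℝ) ^ 8 + 1 ≤ ((n : ℝ) + 1) ^ 8 := by
        have h5 : 0 ≤ (n : ℝ) := by positivity
        nlinarith [pow_nonneg h5 2, pow_nonneg h5 3, pow_nonneg h5 4, pow_nonneg h5 5, pow_nonneg h5 6, pow_nonneg h5 7]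
      linarith
    have h6 : (8 : ℝ) ≤ ((n : ℝ) + 2) ^ 3 := by
      calc (8 : ℝ) = 2 ^ 3 := by norm_num
        _ ≤ ((n : ℝ) + 2) ^ 3 := pow_le_pow_left₀ (by norm_num) (by linarith) 3
    calc 3 + 8 * (n : ℝ) ^ 8 ≤ 8 * ((n : ℝ) ^ 8 + 1) := by linarith
      _ ≤ ((n : ℝ) + 2) ^ 3 * ((n : ℝ) + 2) ^ 8 := mul_le_mul h6 h2 (by positivity) (by positivity)
      _ = ((n : ℝ) + 2) ^ 11 := by ring
  obtain ⟨W, hW⟩ : ∃ W, W = a * L * Real.exp (2 * y * a) * Y23.N2 f := ⟨_, rfl⟩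
  have hW0 : 0 ≤ W := by rw [hW]; positivity
  -- the low part
  have h1 : ∑ ρ ∈ S.filter (fun ρ : Y23.G.Zt => |(ρ : ℂ).im| ≤ T), (Y23.G.mu (ρ : ℂ) : ℝ) * ‖Y23.TT f ((ρ : ℂ) - 1 / 2)‖ ^ 2 ≤
      88 * Real.exp 2 * K * W := by
    refine (hlow a y T f ha hy hT0 hFa _ fun ρ hρ => ?_).trans ?_
    · rw [mem_filter] at hρ
      exact ⟨hSy ρ hρ.1, hρ.2⟩
    · have e1 : Real.exp ((a + 1) * (2 * y)) ≤ Real.exp 2 * Real.exp (2 * y * a) := by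
        rw [← Real.exp_add, Real.exp_le_exp]
        linarith
      have hLT0 := Y23.G.one_le_Lg T
      calc 8 * a * Real.exp ((a + 1) * (2 * y)) * (K * Y23.G.Lg T) * Y23.N2 f
          ≤ 8 * a * (Real.exp 2 * Real.exp (2 * y * a)) * (K * (11 * L)) * Y23.N2 f := by
            refine mul_le_mul_of_nonneg_right ?_ hN
            refine mul_le_mul (mul_le_mul_of_nonneg_left e1 (by positivity))
              (mul_le_mul_of_nonneg_left hLT hK.le) (by positivity) (by positivity)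
        _ = 88 * Real.exp 2 * K * W := by rw [hW]; ring
  -- the high part
  have h2 : ∑ ρ ∈ S.filter (fun ρ : Y23.G.Zt => ¬|(ρ : ℂ).im| ≤ T), (Y23.G.mu (ρ : ℂ) : ℝ) * ‖Y23.TT f ((ρ : ℂ) - 1 / 2)‖ ^ 2 ≤
      4608 * S7 * W := by
    have e1 : ∀ ρ ∈ S.filter (fun ρ : Y23.G.Zt => ¬|(ρ : ℂ).im| ≤ T), (Y23.G.mu (ρ : ℂ) : ℝ) * ‖Y23.TT f ((ρ : ℂ) - 1 / 2)‖ ^ 2 ≤
        4608 * W * ((Y23.G.mu (ρ : ℂ) : ℝ) / (1 + ‖(ρ : ℂ) - 1 / 2‖) ^ (7 / 4 : ℝ)) := by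
      intro ρ hρ
      rw [mem_filter, not_le] at hρ
      have hy2 := hSy ρ hρ.1
      have ew : ((ρ : ℂ) - 1 / 2).im = (ρ : ℂ).im := by simp
      have er : ((ρ : ℂ) - 1 / 2).re = (ρ : ℂ).re - 1 / 2 := by simp
      have hbig : 8 * (n : ℝ) ^ 2 ≤ |((ρ : ℂ) - 1 / 2).im| := by
        rw [ew]
        have : (n : ℝ) ^ 2 ≤ (n : ℝ) ^ 8 := pow_le_pow_right₀ hn1 (by norm_num)
        linarith [hρ.2]
      have e2 := TT_far ha hn hf ((ρ : ℂ) - 1 / 2) hbig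
      have e3 := rp_bound hn1' (v := |(ρ : ℂ).im|) (x := ‖(ρ : ℂ) - 1 / 2‖) (by linarith [hρ.2]) (norm_nonneg _) (by
        have := Complex.norm_le_abs_re_add_abs_im ((ρ : ℂ) - 1 / 2)
        rw [ew, er] at this
        linarith)
      rw [ew, er] at e2
      have e4 : Real.exp (2 * |(ρ : ℂ).re - 1 / 2| * a) ≤ Real.exp (2 * y * a) := by
        rw [Real.exp_le_exp]
        nlinarith
      have e5 : ‖Y23.TT f ((ρ : ℂ) - 1 / 2)‖ ^ 2 ≤ 4608 * W * (1 / (1 + ‖(ρ : ℂ) - 1 / 2‖) ^ (7 / 4 : ℝ)) := by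
        calc ‖Y23.TT f ((ρ : ℂ) - 1 / 2)‖ ^ 2
            ≤ 1152 * (n : ℝ) ^ 2 * a * Real.exp (2 * |(ρ : ℂ).re - 1 / 2| * a) * Y23.N2 f / |(ρ : ℂ).im| ^ 2 := e2
          _ = (1152 * (n : ℝ) ^ 2 * a * Real.exp (2 * |(ρ : ℂ).re - 1 / 2| * a) * Y23.N2 f) * (1 / |(ρ : ℂ).im| ^ 2) := by
              ring
          _ ≤ (1152 * (n : ℝ) ^ 2 * a * Real.exp (2 * y * a) * Y23.N2 f) *
              (4 / (n : ℝ) ^ 2 * (1 / (1 + ‖(ρ : ℂ) - 1 / 2‖) ^ (7 / 4 : ℝ))) := by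
              refine mul_le_mul ?_ e3 (by positivity) (by positivity)
              refine mul_le_mul_of_nonneg_right ?_ hN
              exact mul_le_mul_of_nonneg_left e4 (by positivity)
          _ = 4608 * (a * Real.exp (2 * y * a) * Y23.N2 f) * (1 / (1 + ‖(ρ : ℂ) - 1 / 2‖) ^ (7 / 4 : ℝ)) := by
              field_simp
              ring
          _ ≤ 4608 * W * (1 / (1 + ‖(ρ : ℂ) - 1 / 2‖) ^ (7 / 4 : ℝ)) := by
              refine mul_le_mul_of_nonneg_right ?_ (by positivity)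
              refine mul_le_mul_of_nonneg_left ?_ (by norm_num)
              rw [hW]
              have : 0 ≤ a * Real.exp (2 * y * a) * Y23.N2 f := by positivity
              nlinarith
      calc (Y23.G.mu (ρ : ℂ) : ℝ) * ‖Y23.TT f ((ρ : ℂ) - 1 / 2)‖ ^ 2
          ≤ (Y23.G.mu (ρ : ℂ) : ℝ) * (4608 * W * (1 / (1 + ‖(ρ : ℂ) - 1 / 2‖) ^ (7 / 4 : ℝ))) :=
            mul_le_mul_of_nonneg_left e5 (Nat.cast_nonneg _)
        _ = _ := by ring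
    refine (sum_le_sum e1).trans ?_
    rw [← mul_sum]
    have e6 := hS7.sum_le_tsum (S.filter (fun ρ : Y23.G.Zt => ¬|(ρ : ℂ).im| ≤ T)) fun ρ _ => by positivity
    rw [← hS7d] at e6
    refine (mul_le_mul_of_nonneg_left e6 (by positivity)).trans (le_of_eq ?_)
    ring
  rw [← sum_filter_add_sum_filter_not S (fun ρ : Y23.G.Zt => |(ρ : ℂ).im| ≤ T)]
  refine (add_le_add h1 h2).trans ?_
  have h3 : a * L ≤ a ^ 3 * L ^ 2 := by
    have h4 : a ≤ a ^ 3 := by nlinarith [mul_pos ha0 ha0]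
    have h5 : L ≤ L ^ 2 := by nlinarith
    exact mul_le_mul h4 h5 (by linarith) (by positivity)
  have h6 : W ≤ a ^ 3 * L ^ 2 * Real.exp (2 * y * a) * Y23.N2 f := by
    rw [hW]
    calc a * L * Real.exp (2 * y * a) * Y23.N2 f = (a * L) * (Real.exp (2 * y * a) * Y23.N2 f) := by ring
      _ ≤ (a ^ 3 * L ^ 2) * (Real.exp (2 * y * a) * Y23.N2 f) := mul_le_mul_of_nonneg_right h3 (by positivity)
      _ = _ := by ring
  have hC0 : 0 ≤ 88 * Real.exp 2 * K + 4608 * S7 := by positivity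
  calc 88 * Real.exp 2 * K * W + 4608 * S7 * W = (88 * Real.exp 2 * K + 4608 * S7) * W := by ring
    _ ≤ (88 * Real.exp 2 * K + 4608 * S7) * (a ^ 3 * L ^ 2 * Real.exp (2 * y * a) * Y23.N2 f) :=
        mul_le_mul_of_nonneg_left h6 hC0
    _ = _ := by rw [← hL]; ring

/-- JOB CE-Loc -/
theorem loc (hS : Pool.Agent.Q240.CE.S_SumG) : Pool.Agent.Q240.CE.S_Loc := by
  intro D
  classical
  obtain ⟨C, hC, h⟩ := loc_fin hS (D := D)
  refine ⟨C, hC, fun a y n f ha hy hy1 hn hf => ⟨?_, ?_⟩⟩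
  · refine summable_of_sum_le (fun ρ => by positivity)
      (c := C * a ^ 3 * Real.log (n + 2) ^ 2 * Real.exp (2 * 1 * a) * Y23.N2 f) fun S => ?_
    exact h a 1 n f ha zero_le_one le_rfl hn hf S fun ρ _ => D.strip ρ ρ.2
  · refine Real.tsum_le_of_sum_le (fun ρ => by positivity) fun S => ?_
    rw [← sum_filter]
    exact h a y n f ha hy hy1 hn hf _ fun ρ hρ => (mem_filter.1 hρ).2

end Pool.Agent.Q175.CE
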