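import Pool.Agent.Y23.Fo

/-! Job Loc of the project CE of helper240, part 1: the kernel and the duality. -/

set_option autoImplicit false

open Filter Topology Finset MeasureTheory Complex
open scoped ComplexConjugate

namespace Pool.Agent.Q175.CE

/-- the sharp kernel -/
noncomputable def E1 (u : ℂ) (A : ℝ) : ℂ := ∫ x in (-A)..A, cexp (u * x)

lemma exp_le_of_abs (u : ℂ) {A x : ℝ} (hx : |x| ≤ A) : ‖cexp (u * x)‖ ≤ Real.exp (A * |u.re|) := by
  rw [Complex.norm_exp]
  apply Real.exp_le_exp.2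
  have h2 : (u * x).re = u.re * x := by simp
  rw [h2]
  calc u.re * x ≤ |u.re * x| := le_abs_self _
    _ = |x| * |u.re| := by rw [abs_mul, mul_comm]
    _ ≤ _ := mul_le_mul_of_nonneg_right hx (abs_nonneg _)

lemma E1_norm (u : ℂ) {A : ℝ} (hA : 0 ≤ A) : ‖E1 u A‖ ≤ 2 * A * Real.exp (A * |u.re|) := by
  unfold E1
  have h := intervalIntegral.norm_integral_le_of_norm_le_const (a := -A) (b := A)
    (f := fun x : ℝ => cexp (u * x)) (C := Real.exp (A * |u.re|)) (fun x hx => by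
      rw [Set.uIoc_of_le (by linarith)] at hx
      exact exp_le_of_abs u (abs_le.2 ⟨hx.1.le, hx.2⟩))
  refine h.trans (le_of_eq ?_)
  have e : |A - -A| = 2 * A := by
    rw [sub_neg_eq_add, abs_of_nonneg (by linarith)]
    ring
  rw [e]
  ring

lemma E1_eq {u : ℂ} (hu : u ≠ 0) (A : ℝ) : E1 u A = (cexp (u * A) - cexp (-u * A)) / u := by
  unfold E1
  rw [integral_exp_mul_complex hu]
  congr 3
  push_cast
  ring

lemma E1_cont (u : ℂ) : Continuous (E1 u) := by
  have hc : Continuous fun x : ℝ => cexp (u * x) := by fun_prop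
  have hi : ∀ a b : ℝ, IntervalIntegrable (fun x : ℝ => cexp (u * x)) volume a b :=
    fun a b => hc.intervalIntegrable a b
  have h1 := intervalIntegral.continuous_primitive hi 0
  have e : E1 u = fun A => (∫ x in (0 : ℝ)..A, cexp (u * x)) - ∫ x in (0 : ℝ)..(-A), cexp (u * x) := by
    funext A
    unfold E1
    rw [intervalIntegral.integral_interval_sub_left (hi _ _) (hi _ _)]
  rw [e]
  exact h1.sub (h1.comp continuous_neg)

/-- the averaged kernel -/
noncomputable def K1 (a : ℝ) (u : ℂ) : ℂ := ∫ A in a..(a + 1), E1 u A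

lemma K1_norm1 {a : ℝ} (ha : 0 ≤ a) (u : ℂ) : ‖K1 a u‖ ≤ 2 * (a + 1) * Real.exp ((a + 1) * |u.re|) := by
  unfold K1
  have h := intervalIntegral.norm_integral_le_of_norm_le_const (a := a) (b := a + 1)
    (f := E1 u) (C := 2 * (a + 1) * Real.exp ((a + 1) * |u.re|)) (fun x hx => by
      rw [Set.uIoc_of_le (by linarith)] at hx
      have hx0 : 0 ≤ x := by linarith [hx.1]
      refine (E1_norm u hx0).trans ?_
      refine mul_le_mul (by linarith [hx.2]) (Real.exp_le_exp.2 ?_) (Real.exp_nonneg _) (by linarith)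
      exact mul_le_mul_of_nonneg_right hx.2 (abs_nonneg _))
  refine h.trans (le_of_eq ?_)
  rw [add_sub_cancel_left, abs_one, mul_one]

lemma K1_norm2 {a : ℝ} (ha : 0 ≤ a) (u : ℂ) : ‖u‖ ^ 2 * ‖K1 a u‖ ≤ 4 * Real.exp ((a + 1) * |u.re|) := by
  rcases eq_or_ne u 0 with h | hu
  · rw [h]
    simp
  have hK : K1 a u = ((cexp (u * (a + 1)) - cexp (u * a)) + (cexp (-u * (a + 1)) - cexp (-u * a))) / u ^ 2 := by
    unfold K1
    have e : E1 u = fun A : ℝ => (cexp (u * A) - cexp (-u * A)) / u := by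
      funext A
      exact E1_eq hu A
    rw [e, intervalIntegral.integral_div, intervalIntegral.integral_sub, integral_exp_mul_complex hu,
      integral_exp_mul_complex (neg_ne_zero.2 hu)]
    · push_cast
      field_simp
      ring
    · exact (Continuous.intervalIntegrable (by fun_prop) _ _)
    · exact (Continuous.intervalIntegrable (by fun_prop) _ _)
  have hb : ∀ (v : ℂ) (x : ℝ), v.re = u.re ∨ v.re = -u.re → 0 ≤ x → x ≤ a + 1 → ‖cexp (v * x)‖ ≤ Real.exp ((a + 1) * |u.re|) := by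
    intro v x hv hx0 hx
    have h1 := exp_le_of_abs v (A := a + 1) (x := x) (by rw [abs_of_nonneg hx0]; exact hx)
    have h2 : |v.re| = |u.re| := by
      rcases hv with h | h
      · rw [h]
      · rw [h, abs_neg]
    rwa [h2] at h1
  have h1 := hb u (a + 1) (Or.inl rfl) (by linarith) le_rfl
  have h2 := hb u a (Or.inl rfl) ha (by linarith)
  have h3 := hb (-u) (a + 1) (Or.inr (by simp)) (by linarith) le_rfl
  have h4 := hb (-u) a (Or.inr (by simp)) ha (by linarith)
  rw [hK, norm_div, norm_pow, mul_div_cancel₀ _ (by positivity)]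
  push_cast at h1 h2 h3 h4
  calc _ ≤ ‖cexp (u * (a + 1)) - cexp (u * a)‖ + ‖cexp (-u * (a + 1)) - cexp (-u * a)‖ := norm_add_le _ _
    _ ≤ (‖cexp (u * (a + 1))‖ + ‖cexp (u * a)‖) + (‖cexp (-u * (a + 1))‖ + ‖cexp (-u * a)‖) :=
        add_le_add (norm_sub_le _ _) (norm_sub_le _ _)
    _ ≤ _ := by linarith

lemma K1_norm {a : ℝ} (ha : 1 ≤ a) (u : ℂ) :
    ‖K1 a u‖ ≤ 8 * a * Real.exp ((a + 1) * |u.re|) / (1 + u.im ^ 2) := by
  rw [le_div_iff₀ (by positivity)]
  have h1 := K1_norm1 (by linarith : 0 ≤ a) u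
  have h2 := K1_norm2 (by linarith : 0 ≤ a) u
  have h3 : u.im ^ 2 ≤ ‖u‖ ^ 2 := by
    rw [← sq_abs]
    exact pow_le_pow_left₀ (abs_nonneg _) (Complex.abs_im_le_norm u) 2
  have h4 := mul_le_mul_of_nonneg_right h3 (norm_nonneg (K1 a u))
  have h5 : 0 < Real.exp ((a + 1) * |u.re|) := Real.exp_pos _
  nlinarith

/-- duality -/
theorem dual {ι : Type} (S : Finset ι) (w : ι → ℂ) (m : ι → ℝ) (hm : ∀ r ∈ S, 0 ≤ m r) (κ : ι → ι → ℝ)
    (hsym : ∀ r s, κ r s = κ s r) {a : ℝ} (ha : 0 ≤ a)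
    (hκ : ∀ r ∈ S, ∀ s ∈ S, ‖K1 a (w r + conj (w s))‖ ≤ κ r s) {β : ℝ} (hβ : 0 < β)
    (hb : ∀ r ∈ S, ∑ s ∈ S, m s * κ r s ≤ β) {f : ℝ → ℂ} (hf : Y23.Fa a f) :
    ∑ r ∈ S, m r * ‖Y23.TT f (w r)‖ ^ 2 ≤ β * Y23.N2 f := by
  classical
  obtain ⟨X, hX⟩ : ∃ X, X = ∑ r ∈ S, m r * ‖Y23.TT f (w r)‖ ^ 2 := ⟨_, rfl⟩
  obtain ⟨c, hc⟩ : ∃ c : ι → ℂ, c = fun r => (m r : ℂ) * conj (Y23.TT f (w r)) := ⟨_, rfl⟩
  obtain ⟨G, hG⟩ : ∃ G : ℝ → ℂ, G = fun x : ℝ => ∑ r ∈ S, c r * cexp (w r * x) := ⟨_, rfl⟩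
  have hGc : Continuous G := by rw [hG]; fun_prop
  have hcn : ∀ r ∈ S, ‖c r‖ = m r * ‖Y23.TT f (w r)‖ := by
    intro r hr
    rw [hc]
    simp only
    rw [norm_mul, RCLike.norm_conj, Complex.norm_real, Real.norm_of_nonneg (hm r hr)]
  have hX0 : 0 ≤ X := by
    rw [hX]
    exact sum_nonneg fun r hr => mul_nonneg (hm r hr) (sq_nonneg _)
  -- the sum as an integral
  have h1 : (X : ℂ) = ∫ x : ℝ, f x * G x := by
    have e1 : ∀ x : ℝ, f x * G x = ∑ r ∈ S, c r * (f x * cexp (w r * x)) := by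
      intro x
      rw [hG]
      simp only
      rw [mul_sum]
      exact sum_congr rfl fun r _ => by ring
    simp only [e1]
    rw [integral_finsetSum S fun r _ => (hf.integrable_mul (g := fun x : ℝ => cexp (w r * x)) (by fun_prop)).const_mul (c r)]
    rw [hX]
    push_cast
    refine sum_congr rfl fun r _ => ?_
    rw [integral_const_mul]
    have e2 : ∫ x : ℝ, f x * cexp (w r * x) = Y23.TT f (w r) := rfl
    rw [e2, hc]
    simp only
    rw [mul_assoc, mul_comm (conj _), Complex.mul_conj, Complex.normSq_eq_norm_sq]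
    push_cast
    ring
  -- the norm of `G`
  obtain ⟨H0, hH0⟩ : ∃ H0, H0 = ∫ x in (-a)..a, ‖G x‖ ^ 2 := ⟨_, rfl⟩
  have hGi : ∀ s t : ℝ, IntervalIntegrable (fun x => ‖G x‖ ^ 2) volume s t :=
    fun s t => Continuous.intervalIntegrable (by fun_prop) _ _
  have h2 : X ≤ β / 2 * Y23.N2 f + 1 / (2 * β) * H0 := by
    have e1 : X = ‖∫ x : ℝ, f x * G x‖ := by
      rw [← h1, Complex.norm_real, Real.norm_of_nonneg hX0]
    have hH0' : H0 = ∫ x : ℝ, (Set.Icc (-a) a).indicator (fun x => ‖G x‖ ^ 2) x := by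
      rw [hH0, integral_indicator measurableSet_Icc, integral_Icc_eq_integral_Ioc,
        intervalIntegral.integral_of_le (by linarith)]
    have hGint : Integrable (fun x : ℝ => (Set.Icc (-a) a).indicator (fun x => ‖G x‖ ^ 2) x) := by
      refine IntegrableOn.integrable_indicator ?_ measurableSet_Icc
      exact Continuous.integrableOn_Icc (by fun_prop)
    rw [e1, hH0']
    unfold Y23.N2
    rw [← integral_const_mul, ← integral_const_mul, ← integral_add (hf.sq_int.const_mul _) (hGint.const_mul _)]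
    refine norm_integral_le_of_norm_le ((hf.sq_int.const_mul _).add (hGint.const_mul _)) (Eventually.of_forall fun x => ?_)
    rw [norm_mul]
    by_cases hx : x ∈ Set.Icc (-a) a
    · simp only [Set.indicator_of_mem hx]
      have e2 : β / 2 * ‖f x‖ ^ 2 + 1 / (2 * β) * ‖G x‖ ^ 2 - ‖f x‖ * ‖G x‖ = (β * ‖f x‖ - ‖G x‖) ^ 2 / (2 * β) := by
        field_simp
        ring
      have e3 : 0 ≤ (β * ‖f x‖ - ‖G x‖) ^ 2 / (2 * β) := by positivity
      linarith
    · have e2 : f x = 0 := by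
        refine hf.2 x ?_
        rw [Set.mem_Icc, ← abs_le, not_le] at hx
        exact hx
      rw [e2, norm_zero, zero_mul]
      simp only [Set.indicator_of_notMem hx]
      norm_num
  -- the average
  have h3 : ∀ A : ℝ, (((∫ x in (-A)..A, ‖G x‖ ^ 2 : ℝ)) : ℂ) = ∑ r ∈ S, ∑ s ∈ S, c r * conj (c s) * E1 (w r + conj (w s)) A := by
    intro A
    rw [← intervalIntegral.integral_ofReal]
    have e1 : ∀ x : ℝ, ((‖G x‖ ^ 2 : ℝ) : ℂ) = ∑ r ∈ S, ∑ s ∈ S, c r * conj (c s) * cexp ((w r + conj (w s)) * x) := by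
      intro x
      have : ((‖G x‖ ^ 2 : ℝ) : ℂ) = G x * conj (G x) := by
        rw [Complex.mul_conj, Complex.normSq_eq_norm_sq]
      rw [this, hG]
      simp only
      rw [map_sum, sum_mul_sum]
      refine sum_congr rfl fun r _ => sum_congr rfl fun s _ => ?_
      rw [map_mul, ← Complex.exp_conj, map_mul, Complex.conj_ofReal, add_mul, Complex.exp_add]
      ring
    simp only [e1]
    rw [intervalIntegral.integral_finsetSum]
    · refine sum_congr rfl fun r _ => ?_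
      rw [intervalIntegral.integral_finsetSum]
      · refine sum_congr rfl fun s _ => ?_
        rw [intervalIntegral.integral_const_mul]
        rfl
      · exact fun s _ => Continuous.intervalIntegrable (by fun_prop) _ _
    · exact fun r _ => Continuous.intervalIntegrable (by fun_prop) _ _
  have h4 : Continuous fun A : ℝ => (∫ x in (-A)..A, ‖G x‖ ^ 2 : ℝ) := by
    have h5 := intervalIntegral.continuous_primitive hGi 0
    have e : (fun A : ℝ => (∫ x in (-A)..A, ‖G x‖ ^ 2 : ℝ)) =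
        fun A => (∫ x in (0 : ℝ)..A, ‖G x‖ ^ 2) - ∫ x in (0 : ℝ)..(-A), ‖G x‖ ^ 2 := by
      funext A
      rw [intervalIntegral.integral_interval_sub_left (hGi _ _) (hGi _ _)]
    rw [e]
    exact h5.sub (h5.comp continuous_neg)
  have h5 : H0 ≤ ∫ A in a..(a + 1), (∫ x in (-A)..A, ‖G x‖ ^ 2 : ℝ) := by
    have e1 : H0 = ∫ A in a..(a + 1), H0 := by
      rw [intervalIntegral.integral_const]
      simp
    rw [e1]
    refine intervalIntegral.integral_mono_on (by linarith) (by simp) (h4.intervalIntegrable _ _) fun A hA => ?_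
    rw [hH0]
    refine intervalIntegral.integral_mono_interval (by linarith [hA.1]) (by linarith) hA.1
      (Eventually.of_forall fun x => by positivity) (hGi _ _)
  have h6 : 0 ≤ ∫ A in a..(a + 1), (∫ x in (-A)..A, ‖G x‖ ^ 2 : ℝ) := by
    refine intervalIntegral.integral_nonneg (by linarith) fun A hA => ?_
    exact intervalIntegral.integral_nonneg (by linarith [hA.1]) fun x _ => by positivity
  have h7 : ∫ A in a..(a + 1), (∫ x in (-A)..A, ‖G x‖ ^ 2 : ℝ) ≤ ∑ r ∈ S, ∑ s ∈ S, ‖c r‖ * ‖c s‖ * κ r s := by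
    have e1 : ∫ A in a..(a + 1), (∫ x in (-A)..A, ‖G x‖ ^ 2 : ℝ) =
        ‖∑ r ∈ S, ∑ s ∈ S, c r * conj (c s) * K1 a (w r + conj (w s))‖ := by
      rw [← Real.norm_of_nonneg h6, ← Complex.norm_real, ← intervalIntegral.integral_ofReal]
      congr 1
      simp only [h3]
      rw [intervalIntegral.integral_finsetSum]
      · refine sum_congr rfl fun r _ => ?_
        rw [intervalIntegral.integral_finsetSum]
        · refine sum_congr rfl fun s _ => ?_
          rw [intervalIntegral.integral_const_mul]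
          rfl
        · exact fun s _ => (continuous_const.mul (E1_cont _)).intervalIntegrable _ _
      · exact fun r _ => (continuous_finsetSum _ fun s _ => continuous_const.mul (E1_cont _)).intervalIntegrable _ _
    rw [e1]
    refine (norm_sum_le _ _).trans (sum_le_sum fun r hr => (norm_sum_le _ _).trans (sum_le_sum fun s hs => ?_))
    rw [norm_mul, norm_mul, RCLike.norm_conj]
    exact mul_le_mul_of_nonneg_left (hκ r hr s hs) (by positivity)
  have h8 : ∑ r ∈ S, ∑ s ∈ S, ‖c r‖ * ‖c s‖ * κ r s ≤ β * X := by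
    have hκ0 : ∀ r ∈ S, ∀ s ∈ S, 0 ≤ κ r s := fun r hr s hs => (norm_nonneg _).trans (hκ r hr s hs)
    have e1 : ∑ r ∈ S, ∑ s ∈ S, ‖c r‖ * ‖c s‖ * κ r s ≤
        ∑ r ∈ S, ∑ s ∈ S, (1 / 2 * (m r * ‖Y23.TT f (w r)‖ ^ 2 * (m s * κ r s)) +
          1 / 2 * (m s * ‖Y23.TT f (w s)‖ ^ 2 * (m r * κ s r))) := by
      refine sum_le_sum fun r hr => sum_le_sum fun s hs => ?_
      rw [hcn r hr, hcn s hs, hsym s r]
      have e2 := hm r hr
      have e3 := hm s hs
      have e4 := hκ0 r hr s hs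
      have e5 : 0 ≤ m r * m s * κ r s := by positivity
      nlinarith [mul_nonneg e5 (sq_nonneg (‖Y23.TT f (w r)‖ - ‖Y23.TT f (w s)‖))]
    have e6 : ∑ r ∈ S, ∑ s ∈ S, (1 / 2 * (m r * ‖Y23.TT f (w r)‖ ^ 2 * (m s * κ r s)) +
          1 / 2 * (m s * ‖Y23.TT f (w s)‖ ^ 2 * (m r * κ s r))) =
        ∑ r ∈ S, m r * ‖Y23.TT f (w r)‖ ^ 2 * ∑ s ∈ S, m s * κ r s := by
      simp only [sum_add_distrib]
      have e7 : ∑ r ∈ S, ∑ s ∈ S, 1 / 2 * (m s * ‖Y23.TT f (w s)‖ ^ 2 * (m r * κ s r)) =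
          ∑ r ∈ S, ∑ s ∈ S, 1 / 2 * (m r * ‖Y23.TT f (w r)‖ ^ 2 * (m s * κ r s)) := sum_comm
      rw [e7, ← two_mul, mul_sum]
      refine sum_congr rfl fun r _ => ?_
      rw [mul_sum, mul_sum]
      refine sum_congr rfl fun s _ => ?_
      ring
    rw [e6] at e1
    refine e1.trans ?_
    rw [hX, mul_sum]
    refine sum_le_sum fun r hr => ?_
    rw [mul_comm β]
    exact mul_le_mul_of_nonneg_left (hb r hr) (mul_nonneg (hm r hr) (sq_nonneg _))
  have h9 : H0 ≤ β * X := h5.trans (h7.trans h8)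
  rw [← hX]
  have h10 : 1 / (2 * β) * H0 ≤ X / 2 := by
    calc 1 / (2 * β) * H0 ≤ 1 / (2 * β) * (β * X) := mul_le_mul_of_nonneg_left h9 (by positivity)
      _ = X / 2 := by field_simp
  linarith

end Pool.Agent.Q175.CE
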