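import Pool.Agent.Q175.CE.Rate0a
import Pool.Agent.Q240.CE.Stm

/-! Job Rate0 of the project CE of helper240. -/

set_option autoImplicit false

namespace Pool.Agent.Q175.CE

/-- JOB CE-Rate0 -/
theorem rate0 : Pool.Agent.Q240.CE.S_Rate0 := rate0'

end Pool.Agent.Q175.CE
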