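import Pool.Agent.Q61.CD.Bas
import Pool.Agent.Q65.CD.SpP
import Pool.Agent.Q237.CD.SpB

/-! Job Rate0 of the project CE of helper240: the smallest value of the form is extremely small. -/

set_option autoImplicit false

open Polynomial Filter Topology Finset MeasureTheory

namespace Pool.Agent.Q175.CE

open Pool.Agent.Q240.CD Pool.Agent.Q61.CD

/-- the product formula of the sine, real form -/
theorem sin_sq (a : ℝ) (ha : 0 < a) (n : ℕ) (x : ℝ) (hx : 0 < x) :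
    (∏ k ∈ range n, (1 - x ^ 2 / xk a (k + 1) ^ 2)) ^ 2 * Sr a n x ^ 2 ≤ 1 / (a * x) ^ 2 := by
  have h1 := Pool.Agent.Q65.CD.spp a n (x : ℂ) ha
  rw [(Pool.Agent.Q237.CD.spB a n).2.2.2.1 x] at h1
  have h2 : Real.sin (a * x) = a * x * (∏ k ∈ range n, (1 - x ^ 2 / xk a (k + 1) ^ 2)) * Sr a n x := by
    have : ((Real.sin (a * x) : ℝ) : ℂ) =
        ((a * x * (∏ k ∈ range n, (1 - x ^ 2 / xk a (k + 1) ^ 2)) * Sr a n x : ℝ) : ℂ) := by
      push_cast
      exact h1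
    exact_mod_cast this
  have h3 : Real.sin (a * x) ^ 2 ≤ 1 := Real.sin_sq_le_one _
  rw [h2] at h3
  rw [le_div_iff₀ (by positivity)]
  calc _ = (a * x * (∏ k ∈ range n, (1 - x ^ 2 / xk a (k + 1) ^ 2)) * Sr a n x) ^ 2 := by ring
    _ ≤ 1 := h3

theorem Q_bd (γ : ℕ → ℝ) (hmono : StrictMono γ) (hpos : 0 < γ 0) (a : ℝ) (ha : 0 < a) (n : ℕ) (θ : ℝ)
    (hθ0 : 0 < θ) (hθ1 : θ ≤ 1) (hθ : ∀ j < n, xk a (j + 1) ≤ θ * γ j) (i : ℕ) (hi : n ≤ i) :
    (∏ j ∈ range n, (1 - γ i ^ 2 / γ j ^ 2)) ^ 2 * Sr a n (γ i) ^ 2 ≤ θ ^ (4 * n) * (1 / (a * γ i) ^ 2) := by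
  have hg : ∀ j, 0 < γ j := fun j => hpos.trans_le (hmono.monotone (Nat.zero_le j))
  have h1 : (∏ j ∈ range n, (1 - γ i ^ 2 / γ j ^ 2)) ^ 2 ≤
      θ ^ (4 * n) * (∏ k ∈ range n, (1 - γ i ^ 2 / xk a (k + 1) ^ 2)) ^ 2 := by
    have e1 : θ ^ (4 * n) * (∏ k ∈ range n, (1 - γ i ^ 2 / xk a (k + 1) ^ 2)) ^ 2 =
        ∏ k ∈ range n, (θ ^ 4 * (1 - γ i ^ 2 / xk a (k + 1) ^ 2) ^ 2) := by
      rw [prod_mul_distrib, prod_const, card_range, ← pow_mul, prod_pow]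
    rw [e1, ← prod_pow]
    refine prod_le_prod (fun j _ => sq_nonneg _) fun j hj => ?_
    have hj' : j < n := mem_range.1 hj
    have hx0 : 0 < xk a (j + 1) := Pool.Agent.Q65.CD.xk_pos ha (Nat.succ_pos j)
    have hx := hθ j hj'
    have hji : γ j ≤ γ i := hmono.monotone (by omega)
    have hgj := hg j
    have hgi := hg i
    have hxj : xk a (j + 1) ≤ γ j := hx.trans (by nlinarith)
    have hxi : xk a (j + 1) ≤ γ i := hxj.trans hji
    have f1 : 0 ≤ γ i ^ 2 / γ j ^ 2 - 1 := by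
      rw [sub_nonneg, one_le_div (by positivity)]
      exact pow_le_pow_left₀ hgj.le hji 2
    have f2 : 0 ≤ γ i ^ 2 / xk a (j + 1) ^ 2 - 1 := by
      rw [sub_nonneg, one_le_div (by positivity)]
      exact pow_le_pow_left₀ hx0.le hxi 2
    have f3 : γ i ^ 2 / γ j ^ 2 - 1 ≤ θ ^ 2 * (γ i ^ 2 / xk a (j + 1) ^ 2 - 1) := by
      have g1 : γ i ^ 2 / γ j ^ 2 - 1 ≤ (xk a (j + 1) / γ j) ^ 2 * (γ i ^ 2 / xk a (j + 1) ^ 2 - 1) := by
        have g2 : (xk a (j + 1) / γ j) ^ 2 * (γ i ^ 2 / xk a (j + 1) ^ 2 - 1) =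
            γ i ^ 2 / γ j ^ 2 - (xk a (j + 1) / γ j) ^ 2 := by
          field_simp
        rw [g2]
        have g3 : (xk a (j + 1) / γ j) ^ 2 ≤ 1 := by
          have g4 : xk a (j + 1) / γ j ≤ 1 := (div_le_one hgj).2 hxj
          have g5 : 0 ≤ xk a (j + 1) / γ j := by positivity
          nlinarith
        linarith
      refine g1.trans (mul_le_mul_of_nonneg_right ?_ f2)
      refine pow_le_pow_left₀ (by positivity) ?_ 2
      rw [div_le_iff₀ hgj]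
      exact hx
    calc (1 - γ i ^ 2 / γ j ^ 2) ^ 2 = (γ i ^ 2 / γ j ^ 2 - 1) ^ 2 := by ring
      _ ≤ (θ ^ 2 * (γ i ^ 2 / xk a (j + 1) ^ 2 - 1)) ^ 2 := pow_le_pow_left₀ f1 f3 2
      _ = θ ^ 4 * (1 - γ i ^ 2 / xk a (j + 1) ^ 2) ^ 2 := by ring
  calc (∏ j ∈ range n, (1 - γ i ^ 2 / γ j ^ 2)) ^ 2 * Sr a n (γ i) ^ 2
      ≤ (θ ^ (4 * n) * (∏ k ∈ range n, (1 - γ i ^ 2 / xk a (k + 1) ^ 2)) ^ 2) * Sr a n (γ i) ^ 2 :=
        mul_le_mul_of_nonneg_right h1 (sq_nonneg _)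
    _ = θ ^ (4 * n) * ((∏ k ∈ range n, (1 - γ i ^ 2 / xk a (k + 1) ^ 2)) ^ 2 * Sr a n (γ i) ^ 2) := by ring
    _ ≤ θ ^ (4 * n) * (1 / (a * γ i) ^ 2) :=
        mul_le_mul_of_nonneg_left (sin_sq a ha n (γ i) (hg i)) (by positivity)

/-- the extremal polynomial has the smallest value -/
theorem Ex_le {g M : ℕ → ℝ} {n : ℕ} (h : PM g M n) (hn : 1 ≤ n) {q0 : ℝ[X]} (h0 : Ex g M n 0 q0)
    (Q : ℝ[X]) (hQ : Q.natDegree ≤ n) (hQ0 : Q.eval 0 = 1) :
    Lam g M (q0 * q0) ≤ Lam g M (Q * Q) := by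
  obtain ⟨r, hr⟩ : ∃ r : ℝ[X], r = (Q - q0).divX := ⟨_, rfl⟩
  have hdec : Q = C 1 * q0 + X * r := by
    have f1 := Polynomial.X_mul_divX_add (Q - q0)
    have f2 : (Q - q0).coeff 0 = 0 := by
      rw [Polynomial.coeff_zero_eq_eval_zero, Polynomial.eval_sub, h0.2.1, hQ0]
      ring
    rw [f2, C_0, add_zero, ← hr] at f1
    rw [f1, C_1]
    ring
  have hrd : r.natDegree + 1 ≤ n := by
    rw [hr, Polynomial.natDegree_divX_eq_natDegree_tsub_one]
    have f1 : (Q - q0).natDegree ≤ n := (Polynomial.natDegree_sub_le _ _).trans (max_le hQ h0.1)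
    omega
  have horth := Lam_orth h h0 1 r hrd
  rw [← hdec] at horth
  have hXX : 0 ≤ Lam g M (X * r * (X * r)) := by
    refine Lam_nonneg h _ fun j => ?_
    rw [Polynomial.eval_mul]
    exact mul_self_nonneg _
  linarith

theorem rate_fixed (γ m : ℕ → ℝ) (hmono : StrictMono γ) (hpos : 0 < γ 0) (hm : ∀ j, 1 ≤ m j)
    (hs : Summable fun j => m j / γ j ^ 2) (a : ℝ) (ha : 0 < a) (n : ℕ) (hn : 1 ≤ n) (θ : ℝ)
    (hθ0 : 0 < θ) (hθ1 : θ ≤ 1) (hθ : ∀ j < n, xk a (j + 1) ≤ θ * γ j) (q0 : ℝ[X])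
    (hPM : PM (fun j => γ j ^ 2) (fun j => 2 * m j * Sr a n (Real.sqrt (γ j ^ 2)) ^ 2) n)
    (hEx : Ex (fun j => γ j ^ 2) (fun j => 2 * m j * Sr a n (Real.sqrt (γ j ^ 2)) ^ 2) n 0 q0) :
    Lam (fun j => γ j ^ 2) (fun j => 2 * m j * Sr a n (Real.sqrt (γ j ^ 2)) ^ 2) (q0 * q0) ≤
      θ ^ (4 * n) * (2 / a ^ 2 * ∑' j, m j / γ j ^ 2) := by
  have hg : ∀ j, 0 < γ j := fun j => hpos.trans_le (hmono.monotone (Nat.zero_le j))
  obtain ⟨Q, hQ⟩ : ∃ Q : ℝ[X], Q = ∏ j ∈ range n, (1 - C (1 / γ j ^ 2) * X) := ⟨_, rfl⟩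
  have hQd : Q.natDegree ≤ n := by
    rw [hQ]
    refine (natDegree_prod_le _ _).trans ?_
    calc ∑ i ∈ range n, (1 - C (1 / γ i ^ 2) * X : ℝ[X]).natDegree ≤ ∑ i ∈ range n, 1 := by
          refine sum_le_sum fun i _ => ?_
          refine (natDegree_sub_le _ _).trans (max_le (by simp) ?_)
          have e1 := natDegree_C_mul_le (1 / γ i ^ 2) (X : ℝ[X])
          have e2 := natDegree_X_le (R := ℝ)
          omega
      _ = n := by simp
  have hev : ∀ t, Q.eval t = ∏ j ∈ range n, (1 - t / γ j ^ 2) := by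
    intro t
    rw [hQ, eval_prod]
    refine prod_congr rfl fun j _ => ?_
    simp only [eval_sub, eval_one, eval_mul, eval_C, eval_X]
    ring
  have hQ0 : Q.eval 0 = 1 := by
    rw [hev]
    simp
  refine (Ex_le hPM hn hEx Q hQd hQ0).trans ?_
  have hsum := summ hPM (Q * Q) (natDegree_mul_le2 hQd hQd)
  rw [← tsum_mul_left, ← tsum_mul_left]
  unfold Lam
  refine Summable.tsum_le_tsum (fun i => ?_) hsum ((hs.mul_left _).mul_left _)
  show 2 * m i * Sr a n (Real.sqrt (γ i ^ 2)) ^ 2 * (Q * Q).eval (γ i ^ 2) ≤ _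
  rw [Real.sqrt_sq (hg i).le, eval_mul, hev]
  have hmi : 0 ≤ m i := zero_le_one.trans (hm i)
  by_cases hi : i < n
  · have : ∏ j ∈ range n, (1 - γ i ^ 2 / γ j ^ 2) = 0 := by
      refine prod_eq_zero (mem_range.2 hi) ?_
      rw [div_self (by have := hg i; positivity), sub_self]
    rw [this, mul_zero, mul_zero]
    have := hg i
    positivity
  · have h1 := Q_bd γ hmono hpos a ha n θ hθ0 hθ1 hθ i (not_lt.1 hi)
    have hgi := hg i
    calc 2 * m i * Sr a n (γ i) ^ 2 * ((∏ j ∈ range n, (1 - γ i ^ 2 / γ j ^ 2)) *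
          ∏ j ∈ range n, (1 - γ i ^ 2 / γ j ^ 2))
        = 2 * m i * ((∏ j ∈ range n, (1 - γ i ^ 2 / γ j ^ 2)) ^ 2 * Sr a n (γ i) ^ 2) := by ring
      _ ≤ 2 * m i * (θ ^ (4 * n) * (1 / (a * γ i) ^ 2)) :=
          mul_le_mul_of_nonneg_left h1 (by positivity)
      _ = θ ^ (4 * n) * (2 / a ^ 2 * (m i / γ i ^ 2)) := by
          field_simp

/-- JOB CE-Rate0 -/
theorem rate0' : ∀ (γ m : ℕ → ℝ), StrictMono γ → 0 < γ 0 → (∀ j, 1 ≤ m j) →
  (Summable fun j => m j / (γ j ^ 2) ^ (7 / 8 : ℝ)) →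
  (∃ c0 : ℝ, 0 < c0 ∧ ∀ j : ℕ, c0 * (j + 1) / Real.log (j + 3) ≤ γ j) →
  ∀ (n : ℝ → ℕ) (κ c : ℝ), 0 < κ → c < 4 * κ → Tendsto (fun a : ℝ => (n a : ℝ) / a ^ 2) atTop (𝓝 κ) →
    ∀ᶠ a : ℝ in atTop, ∀ q0 : ℝ[X],
      PM (fun j => γ j ^ 2) (fun j => 2 * m j * Sr a (n a) (Real.sqrt (γ j ^ 2)) ^ 2) (n a) →
      Ex (fun j => γ j ^ 2) (fun j => 2 * m j * Sr a (n a) (Real.sqrt (γ j ^ 2)) ^ 2) (n a) 0 q0 →
      Lam (fun j => γ j ^ 2) (fun j => 2 * m j * Sr a (n a) (Real.sqrt (γ j ^ 2)) ^ 2) (q0 * q0) ≤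
        Real.exp (-(c * a ^ 2 * Real.log a)) := by
  intro γ m hmono hpos hm hs ⟨c0, hc0, hlow⟩ n κ c hκ hc hn
  have hg : ∀ j, 0 < γ j := fun j => hpos.trans_le (hmono.monotone (Nat.zero_le j))
  -- summability
  have hs2 : Summable fun j => m j / γ j ^ 2 := by
    refine Summable.of_nonneg_of_le (fun j => ?_) (fun j => ?_) (hs.mul_left (1 / (γ 0 ^ 2) ^ (1 / 8 : ℝ)))
    · have := hg j
      have := hm j
      positivity
    · have h1 := hg j
      have h2 := hm j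
      have e1 : γ j ^ 2 = (γ j ^ 2) ^ (1 / 8 : ℝ) * (γ j ^ 2) ^ (7 / 8 : ℝ) := by
        rw [← Real.rpow_add (by positivity)]
        norm_num
      have e2 : (γ 0 ^ 2) ^ (1 / 8 : ℝ) ≤ (γ j ^ 2) ^ (1 / 8 : ℝ) :=
        Real.rpow_le_rpow (by positivity)
          (pow_le_pow_left₀ hpos.le (hmono.monotone (Nat.zero_le j)) 2) (by norm_num)
      have e3 : 0 < (γ 0 ^ 2) ^ (1 / 8 : ℝ) := by positivity
      have e4 : 0 < (γ j ^ 2) ^ (7 / 8 : ℝ) := by positivity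
      calc m j / γ j ^ 2 = m j / ((γ j ^ 2) ^ (1 / 8 : ℝ) * (γ j ^ 2) ^ (7 / 8 : ℝ)) := by rw [← e1]
        _ ≤ m j / ((γ 0 ^ 2) ^ (1 / 8 : ℝ) * (γ j ^ 2) ^ (7 / 8 : ℝ)) := by
            refine div_le_div_of_nonneg_left (by linarith) (by positivity) ?_
            exact mul_le_mul_of_nonneg_right e2 e4.le
        _ = 1 / (γ 0 ^ 2) ^ (1 / 8 : ℝ) * (m j / (γ j ^ 2) ^ (7 / 8 : ℝ)) := by
            field_simp
  obtain ⟨S, hS⟩ : ∃ S, S = ∑' j, m j / γ j ^ 2 := ⟨_, rfl⟩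
  have hS0 : 0 ≤ S := by
    rw [hS]
    refine tsum_nonneg fun j => ?_
    have := hg j
    have := hm j
    positivity
  obtain ⟨K, hK⟩ : ∃ K, K = 3 * (Real.pi / c0) := ⟨_, rfl⟩
  have hK0 : 0 < K := by rw [hK]; have := Real.pi_pos; positivity
  -- limits
  have hlog : Tendsto Real.log atTop atTop := Real.tendsto_log_atTop
  have hlim1 : Tendsto (fun a : ℝ => Real.log (K * Real.log a) / Real.log a) atTop (𝓝 0) := by
    have h1 : Tendsto (fun t : ℝ => Real.log (K * t) / t) atTop (𝓝 0) := by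
      have h2 : Tendsto (fun t : ℝ => Real.log t / t) atTop (𝓝 0) := by
        have := Real.tendsto_pow_log_div_mul_add_atTop 1 0 1 one_ne_zero
        simpa using this
      have h3 : Tendsto (fun t : ℝ => Real.log K / t) atTop (𝓝 0) := tendsto_const_nhds.div_atTop tendsto_id
      have h4 := h3.add h2
      rw [add_zero] at h4
      refine h4.congr' ?_
      filter_upwards [eventually_gt_atTop 0] with t ht
      rw [Real.log_mul hK0.ne' ht.ne']
      ring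
    exact h1.comp hlog
  have hlim2 : Tendsto (fun a : ℝ => 4 * ((n a : ℝ) / a ^ 2) * (1 - Real.log (K * Real.log a) / Real.log a))
      atTop (𝓝 (4 * κ)) := by
    have h1 := (hn.const_mul 4).mul ((tendsto_const_nhds (x := (1 : ℝ))).sub hlim1)
    rw [sub_zero, mul_one] at h1
    exact h1
  have hev1 : ∀ᶠ a : ℝ in atTop, c < 4 * ((n a : ℝ) / a ^ 2) * (1 - Real.log (K * Real.log a) / Real.log a) :=
    hlim2.eventually (lt_mem_nhds hc)
  have hev2 : ∀ᶠ a : ℝ in atTop, 0 < (n a : ℝ) / a ^ 2 := hn.eventually (lt_mem_nhds hκ)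
  have hev3 : ∀ᶠ a : ℝ in atTop, (n a : ℝ) / a ^ 2 < κ + 1 := hn.eventually (gt_mem_nhds (by linarith))
  have hev4 : ∀ᶠ a : ℝ in atTop, K * (Real.log a / a) ≤ 1 := by
    have h2 : Tendsto (fun t : ℝ => Real.log t / t) atTop (𝓝 0) := by
      have := Real.tendsto_pow_log_div_mul_add_atTop 1 0 1 one_ne_zero
      simpa using this
    have h3 := h2.const_mul K
    rw [mul_zero] at h3
    filter_upwards [h3.eventually (gt_mem_nhds one_pos)] with a ha
    exact ha.le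
  filter_upwards [hev1, hev2, hev3, hev4, eventually_ge_atTop (κ + 4), eventually_ge_atTop (2 * S + 3)]
    with a h1 h2 h3 h4 h5 h6
  intro q0 hPM hEx
  have ha3 : 3 ≤ a := by linarith
  have ha0 : 0 < a := by linarith
  have hla : 1 ≤ Real.log a := by
    rw [Real.le_log_iff_exp_le ha0]
    have := Real.exp_one_lt_d9
    linarith
  have hn1 : 1 ≤ n a := by
    by_contra hcon
    have : n a = 0 := by omega
    rw [this] at h2
    simp at h2
  have hna : (n a : ℝ) + 3 ≤ a ^ 3 := by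
    rw [div_lt_iff₀ (by positivity)] at h3
    nlinarith
  have hlogn : Real.log ((n a : ℝ) + 3) ≤ 3 * Real.log a := by
    have := Real.log_le_log (by positivity) hna
    rw [Real.log_pow] at this
    exact_mod_cast this
  obtain ⟨θ, hθdef⟩ : ∃ θ, θ = K * (Real.log a / a) := ⟨_, rfl⟩
  have hθ0 : 0 < θ := by rw [hθdef]; positivity
  have hθ1 : θ ≤ 1 := by rw [hθdef]; exact h4
  have hθ : ∀ j < n a, xk a (j + 1) ≤ θ * γ j := by
    intro j hj
    have hl3 : 0 < Real.log ((j : ℝ) + 3) := Real.log_pos (by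
      have : (0 : ℝ) ≤ j := Nat.cast_nonneg j
      linarith)
    have e1 := hlow j
    rw [div_le_iff₀ hl3] at e1
    have e2 : Real.log ((j : ℝ) + 3) ≤ 3 * Real.log a := by
      refine le_trans (Real.log_le_log (by positivity) ?_) hlogn
      have : (j : ℝ) ≤ n a := by exact_mod_cast hj.le
      linarith
    have e3 : c0 * ((j : ℝ) + 1) ≤ γ j * (3 * Real.log a) :=
      e1.trans (mul_le_mul_of_nonneg_left e2 (hg j).le)
    have e4 : xk a (j + 1) = Real.pi * (j + 1) / a := by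
      unfold xk
      push_cast
      ring
    rw [e4, hθdef, hK]
    have e5 : 3 * (Real.pi / c0) * (Real.log a / a) * γ j = Real.pi * ((γ j * (3 * Real.log a)) / c0) / a := by
      field_simp
    rw [e5]
    refine div_le_div_of_nonneg_right ?_ ha0.le
    refine mul_le_mul_of_nonneg_left ?_ Real.pi_pos.le
    rw [le_div_iff₀ hc0, mul_comm]
    exact e3
  have hmain := rate_fixed γ m hmono hpos hm hs2 a ha0 (n a) hn1 θ hθ0 hθ1 hθ q0 hPM hEx
  refine hmain.trans ?_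
  rw [← hS]
  have f1 : 2 / a ^ 2 * S ≤ 1 := by
    rw [div_mul_eq_mul_div, div_le_one (by positivity)]
    nlinarith
  have f2 : θ ^ (4 * n a) * (2 / a ^ 2 * S) ≤ θ ^ (4 * n a) := by
    have : 0 < θ ^ (4 * n a) := by positivity
    nlinarith
  refine f2.trans ?_
  have f3 : θ ^ (4 * n a) = Real.exp (4 * n a * Real.log θ) := by
    rw [← Real.exp_log hθ0, ← Real.exp_nat_mul, Real.log_exp]
    push_cast
    ring_nf
  rw [f3, Real.exp_le_exp]
  have f4 : Real.log θ = Real.log (K * Real.log a) - Real.log a := by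
    rw [hθdef, ← mul_div_assoc, Real.log_div (by positivity) ha0.ne']
  rw [f4]
  have f5 : 4 * (n a : ℝ) * (Real.log (K * Real.log a) - Real.log a) =
      -(4 * ((n a : ℝ) / a ^ 2) * (1 - Real.log (K * Real.log a) / Real.log a) * (a ^ 2 * Real.log a)) := by
    have : Real.log a ≠ 0 := by linarith
    field_simp
    ring
  rw [f5, neg_le_neg_iff, mul_assoc c]
  exact mul_le_mul_of_nonneg_right h1.le (by positivity)

end Pool.Agent.Q175.CE
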